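import Pool.Agent.N328.CD.Defs
import Pool.Agent.H185C.Asm2
import Pool.Agent.H185C.NearLem
import Pool.Agent.H931R2.Haxell

/-!
CD/SEL: one vertex on every circuit of the 2-factor, pairwise far apart (Haxell).
-/

set_option autoImplicit false
set_option linter.unusedSectionVars false

namespace Pool.Agent.N75.CD
open Finset Pool.Agent.H160R2.HF Pool.Agent.H160R2.HF.OrGraph Pool.Agent.N328.LF Pool.Agent.N328.CD
open Pool.Agent.H185C (Near Conn IsPerm Cyc cls cls_eq cls_apply cls_pow cls_edge near_trans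
  near_symm near_mono near_card)

variable {V E : Type} [Fintype V] [Fintype E] [DecidableEq V] [DecidableEq E]

/-- the edges inside `W` -/
def inn (G : OrGraph V E) (W : Finset V) : Finset E :=
  univ.filter (fun e => G.t e ∈ W ∧ G.h e ∈ W)

theorem mem_inn (G : OrGraph V E) (W : Finset V) (e : E) :
    e ∈ inn G W ↔ G.t e ∈ W ∧ G.h e ∈ W := by
  simp [inn]

theorem inn_mono (G : OrGraph V E) {W W' : Finset V} (h : W ⊆ W') : inn G W ⊆ inn G W' := by
  intro e he
  rw [mem_inn] at he ⊢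
  exact ⟨h he.1, h he.2⟩

theorem inn_small (G : OrGraph V E) (hc : G.Cubic) (X : Finset V)
    (h : X.card ≤ (G.cut X).card + 1) : (inn G X).card ≤ X.card := by
  have hs := G.handshake univ X
  rw [inter_univ, sum_congr rfl (fun v _ => hc v), sum_const, smul_eq_mul] at hs
  unfold inn
  omega

theorem ext_edge (G : OrGraph V E) (B W : Finset V) (hB : B.card ≤ (inn G B).card)
    (hW : Disjoint W B) (hWe : W.card ≤ (inn G W).card) (e : E) (w v : V) (hw : w ∈ W)
    (he : (G.t e = w ∧ G.h e = v) ∨ (G.h e = w ∧ G.t e = v)) :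
    (∃ Z : Finset V, Z.card ≤ W.card + B.card ∧ Z.card + 1 ≤ (inn G Z).card) ∨
    (∃ W' : Finset V, Disjoint W' B ∧ v ∈ W' ∧ W'.card ≤ W.card + 1 ∧
      W'.card ≤ (inn G W').card) := by
  by_cases hv : v ∈ W
  · exact Or.inr ⟨W, hW, hv, by omega, hWe⟩
  have hwB : w ∉ B := fun h => (disjoint_left.1 hW) hw h
  have heW : e ∉ inn G W := by
    rw [mem_inn]
    rintro ⟨h1, h2⟩
    rcases he with ⟨h3, h4⟩ | ⟨h3, h4⟩
    · exact hv (h4 ▸ h2)
    · exact hv (h4 ▸ h1)
  by_cases hvB : v ∈ B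
  · left
    refine ⟨W ∪ B, card_union_le _ _, ?_⟩
    have heB : e ∉ inn G B := by
      rw [mem_inn]
      rintro ⟨h1, h2⟩
      rcases he with ⟨h3, h4⟩ | ⟨h3, h4⟩
      · exact hwB (h3 ▸ h1)
      · exact hwB (h3 ▸ h2)
    have hdis : Disjoint (inn G W) (inn G B) := by
      rw [disjoint_left]
      intro f hf hf'
      rw [mem_inn] at hf hf'
      exact (disjoint_left.1 hW) hf.1 hf'.1
    have hsub : insert e (inn G W ∪ inn G B) ⊆ inn G (W ∪ B) := by
      intro f hf
      rw [mem_insert, mem_union] at hf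
      rcases hf with rfl | hf | hf
      · rw [mem_inn, mem_union, mem_union]
        rcases he with ⟨h3, h4⟩ | ⟨h3, h4⟩
        · exact ⟨Or.inl (h3 ▸ hw), Or.inr (h4 ▸ hvB)⟩
        · exact ⟨Or.inr (h4 ▸ hvB), Or.inl (h3 ▸ hw)⟩
      · exact inn_mono G subset_union_left hf
      · exact inn_mono G subset_union_right hf
    have h1 := card_le_card hsub
    rw [card_insert_of_notMem (by rw [mem_union]; exact fun h => h.elim heW heB),
      card_union_of_disjoint hdis] at h1
    rw [card_union_of_disjoint hW]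
    omega
  · right
    refine ⟨insert v W, ?_, mem_insert_self _ _, ?_, ?_⟩
    · rw [disjoint_left]
      intro x hx hxB
      rw [mem_insert] at hx
      rcases hx with rfl | hx
      · exact hvB hxB
      · exact (disjoint_left.1 hW) hx hxB
    · rw [card_insert_of_notMem hv]
    · have hsub : insert e (inn G W) ⊆ inn G (insert v W) := by
        intro f hf
        rw [mem_insert] at hf
        rcases hf with rfl | hf
        · rw [mem_inn, mem_insert, mem_insert]
          rcases he with ⟨h3, h4⟩ | ⟨h3, h4⟩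
          · exact ⟨Or.inr (h3 ▸ hw), Or.inl h4⟩
          · exact ⟨Or.inl h4, Or.inr (h3 ▸ hw)⟩
        · exact inn_mono G (subset_insert _ _) hf
      have h1 := card_le_card hsub
      rw [card_insert_of_notMem heW] at h1
      rw [card_insert_of_notMem hv]
      omega

theorem grow (G : OrGraph V E) (A B : Finset V) (hAB : Disjoint A B)
    (hA : A.card ≤ (inn G A).card) (hB : B.card ≤ (inn G B).card) (u : V) (hu : u ∈ A) (r : ℕ) :
    ∀ v, Near G r u v →
    (∃ Z : Finset V, Z.card ≤ A.card + B.card + r ∧ Z.card + 1 ≤ (inn G Z).card) ∨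
    (∃ W : Finset V, Disjoint W B ∧ v ∈ W ∧ W.card ≤ A.card + r ∧
      W.card ≤ (inn G W).card) := by
  induction r with
  | zero =>
    intro v hv
    have h1 : u = v := hv
    subst h1
    exact Or.inr ⟨A, hAB, hu, le_rfl, hA⟩
  | succ r ih =>
    have key : ∀ (e : E) (w v : V), Near G r u w →
        ((G.t e = w ∧ G.h e = v) ∨ (G.h e = w ∧ G.t e = v)) →
        (∃ Z : Finset V, Z.card ≤ A.card + B.card + (r + 1) ∧ Z.card + 1 ≤ (inn G Z).card) ∨
        (∃ W : Finset V, Disjoint W B ∧ v ∈ W ∧ W.card ≤ A.card + (r + 1) ∧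
          W.card ≤ (inn G W).card) := by
      intro e w v hw he
      rcases ih w hw with ⟨Z, h1, h2⟩ | ⟨W, h1, h2, h3, h4⟩
      · exact Or.inl ⟨Z, by omega, h2⟩
      · rcases ext_edge G B W hB h1 h4 e w v h2 he with ⟨Z, h5, h6⟩ | ⟨W', h5, h6, h7, h8⟩
        · exact Or.inl ⟨Z, by omega, h6⟩
        · exact Or.inr ⟨W', h5, h6, by omega, h8⟩
    intro v hv
    rcases hv with hv | ⟨e, ⟨h1, h2⟩ | ⟨h1, h2⟩⟩
    · rcases ih v hv with ⟨Z, h1, h2⟩ | ⟨W, h1, h2, h3, h4⟩
      · exact Or.inl ⟨Z, by omega, h2⟩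
      · exact Or.inr ⟨W, h1, h2, by omega, h4⟩
    · exact key e _ v h1 (Or.inl ⟨rfl, h2⟩)
    · exact key e _ v h1 (Or.inr ⟨rfl, h2⟩)

theorem far_sets (G : OrGraph V E) (hc : G.Cubic) (k : ℕ)
    (hsmall : ∀ X : Finset V, X.card ≤ k → X.card ≤ (G.cut X).card + 1)
    (A B : Finset V) (hAB : Disjoint A B) (hA : A.card ≤ (inn G A).card)
    (hB : B.card ≤ (inn G B).card) (u v : V) (hu : u ∈ A) (hv : v ∈ B) (r : ℕ)
    (hr : A.card + B.card + r ≤ k) : ¬ Near G r u v := by
  intro hn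
  rcases grow G A B hAB hA hB u hu r v hn with ⟨Z, h1, h2⟩ | ⟨W, h1, h2, -, -⟩
  · have h3 := inn_small G hc Z (hsmall Z (by omega))
    omega
  · exact (disjoint_left.1 h1) h2 hv

open Classical in
/-- the vertices of the cycle `c` -/
noncomputable def cyc (π : Equiv.Perm V) (c : Cyc π) : Finset V :=
  univ.filter (fun v => cls π v = c)

theorem mem_cyc (π : Equiv.Perm V) (c : Cyc π) (v : V) : v ∈ cyc π c ↔ cls π v = c := by
  simp [cyc]

theorem cyc_inn (G : OrGraph V E) (F : Finset E) (π : Equiv.Perm V) (ε : V → E)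
    (hπ : IsPerm G F π ε) (c : Cyc π) : (cyc π c).card ≤ (inn G (cyc π c)).card := by
  apply card_le_card_of_injOn ε
  · intro v hv
    have hv' : cls π v = c := (mem_cyc π c v).1 hv
    show ε v ∈ inn G (cyc π c)
    rw [mem_inn, mem_cyc, mem_cyc]
    rcases hπ.2.2.2 v with ⟨h1, h2⟩ | ⟨h1, h2⟩
    · rw [h1, h2, cls_apply]
      exact ⟨hv', hv'⟩
    · rw [h1, h2, cls_apply]
      exact ⟨hv', hv'⟩
  · exact fun a _ b _ h => hπ.1 h

/-- the size of a cycle is at most any period -/
theorem cyc_le (π : Equiv.Perm V) (v : V) (j : ℕ) (hj : 1 ≤ j) (hv : (π ^ j) v = v) :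
    (cyc π (cls π v)).card ≤ j := by
  have h3 : cyc π (cls π v) ⊆ (Finset.range j).image (fun i => (π ^ i) v) := by
    intro w hw
    rw [mem_cyc, cls_eq] at hw
    obtain ⟨i, _, hi⟩ := hw.symm.exists_pow_eq'
    rw [Finset.mem_image]
    refine ⟨i % j, Finset.mem_range.2 (Nat.mod_lt _ hj), ?_⟩
    have h4 : ∀ m : ℕ, ((π ^ j) ^ m) v = v := by
      intro m
      induction m with
      | zero => simp
      | succ m ih => rw [pow_succ', Equiv.Perm.mul_apply, ih, hv]
    have h5 : (π ^ i) v = (π ^ (i % j)) v := by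
      conv_lhs => rw [← Nat.mod_add_div i j, pow_add, Equiv.Perm.mul_apply, pow_mul, h4]
    rw [← h5, hi]
  have h4 := Finset.card_le_card h3
  have h5 : ((Finset.range j).image (fun i => (π ^ i) v)).card ≤ j :=
    Finset.card_image_le.trans (by simp)
  omega

theorem arc_card (π : Equiv.Perm V) (b : V) (L : ℕ) (hL : L ≤ (cyc π (cls π b)).card) :
    ((range L).image (fun i => (π ^ i) b)).card = L := by
  rw [card_image_of_injOn, card_range]
  have key : ∀ i j : ℕ, i < j → j < L → (π ^ i) b ≠ (π ^ j) b := by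
    intro i j hij hj h
    have h1 : (π ^ (j - i)) ((π ^ i) b) = (π ^ i) b := by
      rw [← Equiv.Perm.mul_apply, ← pow_add, Nat.sub_add_cancel hij.le, h]
    have h2 := cyc_le π ((π ^ i) b) (j - i) (by omega) h1
    rw [cls_pow] at h2
    omega
  intro i hi j hj h
  have hi' : i < L := mem_range.1 hi
  have hj' : j < L := mem_range.1 hj
  rcases lt_trichotomy i j with h1 | h1 | h1
  · exact absurd h (key i j h1 hj')
  · exact h1
  · exact absurd h.symm (key j i h1 hi')

theorem near_step (G : OrGraph V E) (F : Finset E) (π : Equiv.Perm V) (ε : V → E)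
    (hπ : IsPerm G F π ε) (v : V) : Near G 1 v (π v) := by
  right
  refine ⟨ε v, ?_⟩
  rcases hπ.2.2.2 v with ⟨h3, h4⟩ | ⟨h3, h4⟩
  · left; exact ⟨h3.symm, h4⟩
  · right; exact ⟨h4.symm, h3⟩

theorem near_pow (G : OrGraph V E) (F : Finset E) (π : Equiv.Perm V) (ε : V → E)
    (hπ : IsPerm G F π ε) (v : V) (m : ℕ) : Near G m v ((π ^ m) v) := by
  induction m with
  | zero => exact rfl
  | succ m ih =>
    have h1 := near_trans G m 1 _ _ _ ih (near_step G F π ε hπ ((π ^ m) v))
    rwa [← Equiv.Perm.mul_apply, ← pow_succ'] at h1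

theorem near_arc (G : OrGraph V E) (F : Finset E) (π : Equiv.Perm V) (ε : V → E)
    (hπ : IsPerm G F π ε) (b : V) (L i j : ℕ) (hi : i < L) (hj : j < L) :
    Near G L ((π ^ i) b) ((π ^ j) b) := by
  have key : ∀ i j : ℕ, i ≤ j → j < L → Near G L ((π ^ i) b) ((π ^ j) b) := by
    intro i j hij hj
    have h1 := near_pow G F π ε hπ ((π ^ i) b) (j - i)
    rw [← Equiv.Perm.mul_apply, ← pow_add, Nat.sub_add_cancel hij] at h1
    exact near_mono G _ _ (by omega) _ _ h1
  rcases le_total i j with h | h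
  · exact key i j h hj
  · exact near_symm G _ _ _ (key j i h hi)

theorem bound (q : ℕ) : 3 * 4 ^ (6 * q + 2 + 1) + 2 * (6 * q + 2) ≤ 4 ^ (10 * q + 5) := by
  have h1 : 4 ^ (10 * q + 5) = 4 ^ (4 * q + 2) * 4 ^ (6 * q + 2 + 1) := by
    rw [← pow_add]
    congr 1
    omega
  have h2 : 6 * q + 2 + 1 < 4 ^ (6 * q + 2 + 1) := Nat.lt_pow_self (by norm_num)
  have h3 : 4 ^ 2 ≤ 4 ^ (4 * q + 2) := Nat.pow_le_pow_right (by norm_num) (by omega)
  rw [h1]
  have h4 : 4 ^ 2 * 4 ^ (6 * q + 2 + 1) ≤ 4 ^ (4 * q + 2) * 4 ^ (6 * q + 2 + 1) :=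
    Nat.mul_le_mul_right _ h3
  omega

theorem sel (q : ℕ) (G : OrGraph V E) (hc : G.Cubic)
    (hsmall : ∀ X : Finset V, X.card ≤ 4 ^ (10 * q + 5) → X.card ≤ (G.cut X).card + 1)
    (F : Finset E) (hF : G.IsTwoFactor F) (π : Equiv.Perm V) (ε : V → E)
    (hπ : IsPerm G F π ε) :
    ∃ s : V → V, (∀ x, π.SameCycle x (s x)) ∧ (∀ x y, π.SameCycle x y → s x = s y) ∧
      ∀ x y, ¬ π.SameCycle x y → ¬ Near G (6 * q + 2) (s x) (s y) := by
  classical
  rcases isEmpty_or_nonempty V with hV | hV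
  · exact ⟨id, fun x => hV.elim x, fun x => hV.elim x, fun x => hV.elim x⟩
  have hk := bound q
  generalize 4 ^ (10 * q + 5) = k at hsmall hk
  generalize 6 * q + 2 = D at hk ⊢
  obtain ⟨L, hL⟩ : ∃ L, L = 4 ^ (D + 1) := ⟨_, rfl⟩
  rw [← hL] at hk
  have hL4 : L = 4 * 4 ^ D := by rw [hL]; ring
  have hDpos : 0 < 4 ^ D := by positivity
  have hrep : ∀ c : Cyc π, ∃ v, cls π v = c := fun c => Quotient.exists_rep c
  choose s0 hs0 using hrep
  have hshort : ∀ c c' : Cyc π, c ≠ c' → (cyc π c).card < L → (cyc π c').card < L →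
      ¬ Near G (D + L + D) (s0 c) (s0 c') := by
    intro c c' hcc h1 h2
    apply far_sets G hc k hsmall (cyc π c) (cyc π c') _ (cyc_inn G F π ε hπ c)
      (cyc_inn G F π ε hπ c') _ _ ((mem_cyc π c _).2 (hs0 c)) ((mem_cyc π c' _).2 (hs0 c'))
    · omega
    · rw [disjoint_left]
      intro x hx hx'
      rw [mem_cyc] at hx hx'
      exact hcc (hx.symm.trans hx')
  -- the admissible vertices of a long circuit
  obtain ⟨Adm, hAdm⟩ : ∃ Adm : Cyc π → V → Prop, ∀ c v, Adm c v ↔ (cls π v = c ∧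
      ∀ c', (cyc π c').card < L → ¬ Near G D v (s0 c')) := ⟨_, fun _ _ => Iff.rfl⟩
  have hadm : ∀ c : Cyc π, L ≤ (cyc π c).card → 3 * 4 ^ D ≤ (univ.filter (Adm c)).card := by
    intro c hcL
    set I : Finset V := (range L).image (fun i => (π ^ i) (s0 c)) with hI
    have hIc : I.card = L := arc_card π (s0 c) L (by rw [hs0]; exact hcL)
    have hIcls : ∀ v ∈ I, cls π v = c := by
      intro v hv
      rw [hI, mem_image] at hv
      obtain ⟨i, _, rfl⟩ := hv
      rw [cls_pow, hs0]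
    have hbad : (I.filter (fun v => ¬ Adm c v)).card ≤ 4 ^ D := by
      have hb : ∀ v ∈ I.filter (fun v => ¬ Adm c v), ∃ c', (cyc π c').card < L ∧
          Near G D v (s0 c') := by
        intro v hv
        rw [mem_filter, hAdm] at hv
        by_contra hcon
        push Not at hcon
        exact hv.2 ⟨hIcls v hv.1, hcon⟩
      rcases (I.filter (fun v => ¬ Adm c v)).eq_empty_or_nonempty with h0 | ⟨v0, hv0⟩
      · rw [h0, card_empty]; exact Nat.zero_le _
      obtain ⟨c', hc', hn'⟩ := hb v0 hv0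
      apply near_card G hc D (s0 c')
      intro v hv
      obtain ⟨c'', hc'', hn''⟩ := hb v hv
      have h1 : c'' = c' := by
        by_contra hne
        apply hshort c'' c' hne hc'' hc'
        obtain ⟨i, hi, hiv⟩ := mem_image.1 (mem_filter.1 hv).1
        obtain ⟨j, hj, hjv⟩ := mem_image.1 (mem_filter.1 hv0).1
        have h2 : Near G L v v0 := by
          rw [← hiv, ← hjv]
          exact near_arc G F π ε hπ (s0 c) L i j (mem_range.1 hi) (mem_range.1 hj)
        exact near_trans G (D + L) D _ _ _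
          (near_trans G D L _ _ _ (near_symm G D _ _ hn'') h2) hn'
      rw [← h1]
      exact near_symm G D _ _ hn''
    have hsplit := card_filter_add_card_filter_not (s := I) (Adm c)
    have hsub : I.filter (Adm c) ⊆ univ.filter (Adm c) := filter_subset_filter _ (subset_univ _)
    have h2 := card_le_card hsub
    omega
  -- the long circuits
  let J : Type := {c : Cyc π // L ≤ (cyc π c).card}
  have : Finite J := Subtype.finite
  let _ : Fintype J := Fintype.ofFinite J
  have hs1 : ∀ c : J, ∃ v, Adm c.1 v := by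
    intro c
    have h1 := hadm c.1 c.2
    have h2 : 0 < (univ.filter (Adm c.1)).card := by omega
    obtain ⟨v, hv⟩ := card_pos.1 h2
    exact ⟨v, (mem_filter.1 hv).2⟩
  choose s1 hs1 using hs1
  obtain ⟨φ, hφ⟩ : ∃ φ : J × V → V, ∀ z, φ z = if Adm z.1.1 z.2 then z.2 else s1 z.1 :=
    ⟨_, fun _ => rfl⟩
  have hφA : ∀ z, Adm z.1.1 (φ z) := by
    intro z
    rw [hφ]
    split_ifs with h
    · exact h
    · exact hs1 _
  obtain ⟨adj, hadj⟩ : ∃ adj : J × V → J × V → Prop, ∀ z z', adj z z' ↔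
      (z.1 ≠ z'.1 ∧ Near G D (φ z) (φ z')) := ⟨_, fun _ _ => Iff.rfl⟩
  have hsymm : ∀ a b, adj a b → adj b a := by
    intro a b h
    rw [hadj] at h ⊢
    exact ⟨fun e => h.1 e.symm, near_symm G D _ _ h.2⟩
  obtain ⟨f, hf⟩ := Pool.Agent.H931R2.Haxell.finite (adj := adj) hsymm (by
    intro K hK Z hZ
    by_contra hcon
    push Not at hcon
    have hAcard : K.card * (3 * 4 ^ D) ≤ (K.biUnion (fun c => univ.filter (Adm c.1))).card := by
      rw [Finset.card_biUnion]
      · rw [← smul_eq_mul]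
        exact Finset.card_nsmul_le_sum _ _ _ fun c _ => hadm c.1 c.2
      · intro c _ c' _ hcc
        change Disjoint (univ.filter (Adm c.1)) (univ.filter (Adm c'.1))
        rw [Finset.disjoint_left]
        intro v hv hv'
        rw [mem_filter, hAdm] at hv hv'
        exact hcc (Subtype.ext (hv.2.1.symm.trans hv'.2.1))
    have hsub : K.biUnion (fun c => univ.filter (Adm c.1)) ⊆
        Z.biUnion (fun z => univ.filter (fun v => Near G D (φ z) v)) := by
      intro v hv
      rw [mem_biUnion] at hv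
      obtain ⟨c, hcK, hvc⟩ := hv
      rw [mem_filter] at hvc
      obtain ⟨z, hz, hyz⟩ := hcon c hcK v
      refine Finset.mem_biUnion.2 ⟨z, hz, Finset.mem_filter.2 ⟨Finset.mem_univ _, ?_⟩⟩
      rw [hadj] at hyz
      have h2 : φ (c, v) = v := by rw [hφ]; exact if_pos hvc.2
      have h3 := hyz.2
      rw [h2] at h3
      exact near_symm G D _ _ h3
    have h1 := Finset.card_le_card hsub
    have h2 : (Z.biUnion (fun z => univ.filter (fun v => Near G D (φ z) v))).card ≤
        Z.card * 4 ^ D :=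
      Finset.card_biUnion_le_card_mul _ _ _ fun z _ => near_card G hc D (φ z) _ (fun v hv =>
        (Finset.mem_filter.1 hv).2)
    have h3 := hK.card_pos
    have h4 := hAcard.trans (h1.trans h2)
    have h7 : K.card * 3 * 4 ^ D ≤ Z.card * 4 ^ D := by
      calc K.card * 3 * 4 ^ D = K.card * (3 * 4 ^ D) := by ring
        _ ≤ _ := h4
    have h8 := Nat.le_of_mul_le_mul_right h7 hDpos
    omega) (univ : Finset J)
  -- the choice
  obtain ⟨g, hg1, hg2⟩ : ∃ g : Cyc π → V,
      (∀ c, ∀ h : L ≤ (cyc π c).card, g c = φ (⟨c, h⟩, f ⟨c, h⟩)) ∧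
      (∀ c, (cyc π c).card < L → g c = s0 c) := by
    refine ⟨fun c => if h : L ≤ (cyc π c).card then φ (⟨c, h⟩, f ⟨c, h⟩) else s0 c, ?_, ?_⟩
    · intro c h
      exact dif_pos h
    · intro c h
      exact dif_neg (not_le.2 h)
  have hgc : ∀ c, cls π (g c) = c := by
    intro c
    rcases lt_or_ge (cyc π c).card L with h | h
    · rw [hg2 c h, hs0]
    · rw [hg1 c h]
      exact ((hAdm _ _).1 (hφA (⟨c, h⟩, f ⟨c, h⟩))).1
  have hgn : ∀ c c', c ≠ c' → ¬ Near G D (g c) (g c') := by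
    intro c c' hcc
    rcases lt_or_ge (cyc π c).card L with h | h
    · rcases lt_or_ge (cyc π c').card L with h' | h'
      · rw [hg2 c h, hg2 c' h']
        intro hn
        exact hshort c c' hcc h h' (near_mono G _ _ (by omega) _ _ hn)
      · rw [hg2 c h, hg1 c' h']
        intro hn
        exact ((hAdm _ _).1 (hφA (⟨c', h'⟩, f ⟨c', h'⟩))).2 c h (near_symm G D _ _ hn)
    · rcases lt_or_ge (cyc π c').card L with h' | h'
      · rw [hg1 c h, hg2 c' h']
        exact ((hAdm _ _).1 (hφA (⟨c, h⟩, f ⟨c, h⟩))).2 c' h'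
      · rw [hg1 c h, hg1 c' h']
        intro hn
        have hne : (⟨c, h⟩ : J) ≠ ⟨c', h'⟩ := fun e => hcc (Subtype.ext_iff.1 e)
        exact hf ⟨c, h⟩ (mem_univ _) ⟨c', h'⟩ (mem_univ _) hne ((hadj _ _).2 ⟨hne, hn⟩)
  refine ⟨fun x => g (cls π x), ?_, ?_, ?_⟩
  · intro x
    rw [← cls_eq, hgc]
  · intro x y h
    show g (cls π x) = g (cls π y)
    rw [(cls_eq π x y).2 h]
  · intro x y h
    exact hgn _ _ (fun e => h ((cls_eq π x y).1 e))

end Pool.Agent.N75.CD
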